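import Pool.Agent.H497R3.CondExp
import Pool.Agent.H497R3.Slow
import Pool.Agent.H497R3.GeoLaw
import Pool.Agent.Y16.SP.Bc

/-!
# Arbitrarily slow excited random walks for every value of the drift in `[0, ∞]`

For every `δ ∈ [0, ∞]` (the value `∞` included) and every function `g` which tends to infinity,
however slowly, there is a law of i.i.d. cookie stacks satisfying (WEL), with well defined expected
drift per site `δ`, for which the first excited random walk satisfies `|X_n| ≤ g n` for all large
`n`, almost surely. In particular its speed is zero, also for `δ = ∞`.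
-/

set_option autoImplicit false
open MeasureTheory ProbabilityTheory Filter Topology
open scoped ENNReal

namespace Pool.Agent.Results.MP_204ba2_pr.ArbitrarilySlow

/-- A law on cookie environments: a probability measure on `ℤ → ℕ → ℝ` which is almost surely
`[0,1]`-valued.  `ω x n` is the `(n+1)`-st cookie at site `x`. -/
def IsCookieLaw (P : Measure (ℤ → ℕ → ℝ)) : Prop :=
  IsProbabilityMeasure P ∧ ∀ᵐ ω ∂P, ∀ (x : ℤ) (n : ℕ), ω x n ∈ Set.Icc (0:ℝ) 1

/-- (IID): the stacks are independent and identically distributed. -/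
def IsIIDStacks (P : Measure (ℤ → ℕ → ℝ)) : Prop :=
  iIndepFun (fun (x : ℤ) (ω : ℤ → ℕ → ℝ) => ω x) P ∧
    ∀ x : ℤ, IdentDistrib (fun ω : ℤ → ℕ → ℝ => ω x) (fun ω => ω 0) P P

/-- (WEL). -/
def IsWEL (P : Measure (ℤ → ℕ → ℝ)) : Prop :=
  ∀ x : ℤ, 0 < P {ω | ∀ n, 0 < ω x n} ∧ 0 < P {ω | ∀ n, ω x n < 1}

/-- partial sums of the drift at the origin, as extended reals -/
noncomputable def partialDrift (ω : ℤ → ℕ → ℝ) (N : ℕ) : EReal :=
  ((∑ i ∈ Finset.range N, (2 * ω 0 i - 1) : ℝ) : EReal)

/-- the total drift stored at the origin (the limit of the partial sums when it exists) -/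
noncomputable def siteDrift (ω : ℤ → ℕ → ℝ) : EReal := limsup (partialDrift ω) atTop

/-- the expected drift per site is well defined: the partial sums converge almost surely in the
extended reals and the negative part of the limit is integrable -/
def DriftWellDefined (P : Measure (ℤ → ℕ → ℝ)) : Prop :=
  (∀ᵐ ω ∂P, ∃ s : EReal, Tendsto (partialDrift ω) atTop (𝓝 s)) ∧
    (∫⁻ ω, (-(siteDrift ω)).toENNReal ∂P) < ⊤

/-- the expected drift per site `δ` -/
noncomputable def delta (P : Measure (ℤ → ℕ → ℝ)) : EReal :=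
  ((∫⁻ ω, (siteDrift ω).toENNReal ∂P : ℝ≥0∞) : EReal) -
    ((∫⁻ ω, (-(siteDrift ω)).toENNReal ∂P : ℝ≥0∞) : EReal)

/-- `X 0, X 1, …` are the successive excited walkers (`X k` is the walker number `k + 1`) on the
iterated leftover environments `env 0 = W, env 1, …` on a probability space `(Θ, μ)`, where `W`
has law `P`: all walkers start at `0` and make nearest neighbour steps, and conditionally on the
initial environment, the previous walkers and its own past, a walker steps to the right with
probability the value of the cookie it finds. -/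
structure IsWalkerSystem (P : Measure (ℤ → ℕ → ℝ)) {Θ : Type} [MeasurableSpace Θ]
    (μ : Measure Θ) (W : Θ → ℤ → ℕ → ℝ) (X : ℕ → Θ → ℕ → ℤ)
    (env : ℕ → Θ → ℤ → ℕ → ℝ) : Prop where
  prob : IsProbabilityMeasure μ
  meas_env : Measurable W
  law_env : μ.map W = P
  meas_walk : ∀ j, Measurable (X j)
  env_zero : env 0 = W
  env_transient : ∀ (j : ℕ) (θ : Θ) (x : ℤ) (n : ℕ),
    Tendsto (fun m => |X j θ m|) atTop atTop →
      env (j+1) θ x n = env j θ x (n + Nat.card {m : ℕ // X j θ m = x})
  env_recurrent : ∀ (j : ℕ) (θ : Θ) (x : ℤ) (n : ℕ),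
    ¬ Tendsto (fun m => |X j θ m|) atTop atTop → env (j+1) θ x n = 1/2
  start : ∀ (j : ℕ) (θ : Θ), X j θ 0 = 0
  nearest : ∀ (j : ℕ) (θ : Θ) (n : ℕ),
    X j θ (n+1) = X j θ n + 1 ∨ X j θ (n+1) = X j θ n - 1
  transition : ∀ (j n : ℕ),
    condExp
      (MeasurableSpace.comap
        (fun θ => (W θ, (fun i : Fin j => X (i : ℕ) θ), (fun m : Fin (n+1) => X j θ (m : ℕ))))
        inferInstance)
      μ (Set.indicator {θ | X j θ (n+1) = X j θ n + 1} (fun _ => (1:ℝ)))
    =ᵐ[μ] fun θ => env j θ (X j θ n) ((Finset.range n).filter (fun m => X j θ m = X j θ n)).card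

open Pool.Agent.H497R3 Pool.Agent.Y16.SP

/-! ### the law -/

/-- the stack with label `i` (with pile sizes `F` and surpluses `t`): label `0` is constantly
`1/2`, an even label `i ≥ 2` has `F (i/2 - 1)` cookies `0`, then `F (i/2 - 1) + t i` cookies `1`,
then `1/2`; an odd label has `F (i/2 - 1) + t i` cookies `1`, then `F (i/2 - 1)` cookies `0`, then
`1/2`. -/
noncomputable def stk (F t : ℕ → ℕ) (i k : ℕ) : ℝ :=
  if i = 0 then 1/2
  else if i % 2 = 0 then
    (if k < F (i / 2 - 1) then 0 else if k < 2 * F (i / 2 - 1) + t i then 1 else 1/2)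
  else (if k < F (i / 2 - 1) + t i then 1 else if k < 2 * F (i / 2 - 1) + t i then 0 else 1/2)

theorem stk_values (F t : ℕ → ℕ) (i k : ℕ) :
    stk F t i k = 0 ∨ stk F t i k = 1/2 ∨ stk F t i k = 1 := by
  unfold stk
  split_ifs <;> simp

theorem stk_mem (F t : ℕ → ℕ) (i k : ℕ) : stk F t i k ∈ Set.Icc (0:ℝ) 1 := by
  rcases stk_values F t i k with h | h | h <;> rw [h] <;> norm_num

theorem partial_sum_stk (F t : ℕ → ℕ) (ht : t 0 = 0) (i N : ℕ)
    (hN : 2 * F (i / 2 - 1) + t i ≤ N) :
    ∑ k ∈ Finset.range N, (2 * stk F t i k - 1) = t i := by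
  have hsplit : ∀ (f : ℕ → ℝ) (M : ℕ), M ≤ N → (∀ k, M ≤ k → f k = 0) →
      ∑ k ∈ Finset.range N, f k = ∑ k ∈ Finset.range M, f k := by
    intro f M hM hf
    rw [← Finset.sum_subset (Finset.range_mono hM)]
    intro k _ hk
    exact hf k (by simpa using hk)
  by_cases h0 : i = 0
  · subst h0
    simp [stk, ht]
  set m := F (i / 2 - 1) with hm
  rw [hsplit _ (2 * m + t i) hN (by
    intro k hk
    unfold stk
    rw [if_neg h0, ← hm]
    split_ifs <;> first | omega | norm_num)]
  by_cases hp : i % 2 = 0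
  · rw [show 2 * m + t i = m + (m + t i) by ring, Finset.sum_range_add,
      Finset.sum_congr rfl (g := fun _ => (-1:ℝ)),
      Finset.sum_congr rfl (g := fun _ => (1:ℝ))
        (s₁ := Finset.range (m + t i)) (f := fun x => 2 * stk F t i (m + x) - 1)]
    · simp
    · intro k hk
      have := Finset.mem_range.mp hk
      unfold stk
      rw [if_neg h0, if_pos hp, ← hm, if_neg (by omega), if_pos (by omega)]
      norm_num
    · intro k hk
      have := Finset.mem_range.mp hk
      unfold stk
      rw [if_neg h0, if_pos hp, ← hm, if_pos (by omega)]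
      norm_num
  · rw [show 2 * m + t i = (m + t i) + m by ring, Finset.sum_range_add,
      Finset.sum_congr rfl (g := fun _ => (1:ℝ)),
      Finset.sum_congr rfl (g := fun _ => (-1:ℝ))
        (s₁ := Finset.range m) (f := fun x => 2 * stk F t i (m + t i + x) - 1)]
    · simp
    · intro k hk
      have := Finset.mem_range.mp hk
      unfold stk
      rw [if_neg h0, if_neg hp, ← hm, if_neg (by omega), if_pos (by omega)]
      norm_num
    · intro k hk
      have := Finset.mem_range.mp hk
      unfold stk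
      rw [if_neg h0, if_neg hp, ← hm, if_pos (by omega)]
      norm_num

/-- partial drift of a stack -/
noncomputable def pd (s : ℕ → ℝ) (N : ℕ) : EReal :=
  ((∑ i ∈ Finset.range N, (2 * s i - 1) : ℝ) : EReal)

theorem measurable_pd (N : ℕ) : Measurable (fun s : ℕ → ℝ => pd s N) := by
  unfold pd
  apply Measurable.coe_real_ereal
  exact Finset.measurable_fun_sum _ fun i _ =>
    ((measurable_pi_apply i).const_mul 2).sub_const 1

theorem tendsto_pd (F t : ℕ → ℕ) (ht : t 0 = 0) (i : ℕ) :
    Tendsto (pd (stk F t i)) atTop (𝓝 ((t i : ℝ) : EReal)) := by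
  apply tendsto_const_nhds.congr'
  filter_upwards [eventually_ge_atTop (2 * F (i / 2 - 1) + t i)] with N hN
  unfold pd
  rw [partial_sum_stk F t ht i N hN]

theorem limsup_pd (F t : ℕ → ℕ) (ht : t 0 = 0) (i : ℕ) :
    limsup (pd (stk F t i)) atTop = ((t i : ℝ) : EReal) :=
  (tendsto_pd F t ht i).limsup_eq

theorem neg_part (F t : ℕ → ℕ) (ht : t 0 = 0) :
    ∫⁻ ω, (-(siteDrift ω)).toENNReal ∂(labelLaw (stk F t)) = 0 := by
  have hm : Measurable (fun s : ℕ → ℝ => (-(limsup (pd s) atTop)).toENNReal) :=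
    (Measurable.limsup measurable_pd).neg.ereal_toENNReal
  have h := lintegral_labelLaw_zero (stk F t)
    (fun s => (-(limsup (pd s) atTop)).toENNReal) hm
  refine Eq.trans h ?_
  rw [ENNReal.tsum_eq_zero]
  intro i
  rw [limsup_pd F t ht]
  have : (-((t i : ℝ) : EReal)).toENNReal = 0 := by
    rw [← EReal.coe_neg, EReal.toENNReal_eq_zero_iff]
    exact_mod_cast neg_nonpos.mpr (Nat.cast_nonneg (α := ℝ) (t i))
  rw [this, mul_zero]

theorem drift_wd (F t : ℕ → ℕ) (ht : t 0 = 0) : DriftWellDefined (labelLaw (stk F t)) := by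
  constructor
  · unfold labelLaw
    have hconv : MeasurableSet {ω : ℤ → ℕ → ℝ | ∃ s : EReal, Tendsto (partialDrift ω) atTop (𝓝 s)} := by
      apply measurableSet_exists_tendsto
      intro N
      exact (measurable_pd N).comp (measurable_pi_apply 0)
    have hml : Measurable (fun (l : ℤ → ℕ) (x : ℤ) => stk F t (l x)) :=
      measurable_pi_lambda _ fun x =>
        (measurable_of_countable (stk F t)).comp (measurable_pi_apply x)
    rw [ae_map_iff hml.aemeasurable hconv]
    exact ae_of_all _ fun l => ⟨_, tendsto_pd F t ht (l 0)⟩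
  · rw [neg_part F t ht]
    exact ENNReal.zero_lt_top

theorem delta_eq (F t : ℕ → ℕ) (ht : t 0 = 0) (δ : ℝ≥0∞)
    (hδ : ∑' i : ℕ, ((2:ℝ≥0∞)⁻¹)^(i+1) * (t i : ℝ≥0∞) = δ) :
    delta (labelLaw (stk F t)) = (δ : EReal) := by
  have hm' : Measurable (fun s : ℕ → ℝ => (limsup (pd s) atTop).toENNReal) :=
    (Measurable.limsup measurable_pd).ereal_toENNReal
  have h3 : ∫⁻ ω, (siteDrift ω).toENNReal ∂(labelLaw (stk F t)) = δ := by
    have h := lintegral_labelLaw_zero (stk F t)
      (fun s => (limsup (pd s) atTop).toENNReal) hm'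
    refine Eq.trans h ?_
    rw [← hδ]
    refine tsum_congr fun i => ?_
    rw [limsup_pd F t ht, EReal.toENNReal_of_ne_top (EReal.coe_ne_top _), EReal.toReal_coe,
      ENNReal.ofReal_natCast]
  unfold delta
  rw [neg_part F t ht, h3]
  simp only [EReal.coe_ennreal_zero, sub_zero]

theorem meas_pile (v : ℝ) (m : ℕ) : MeasurableSet {s : ℕ → ℝ | ∀ k, k < m → s k = v} := by
  have : {s : ℕ → ℝ | ∀ k, k < m → s k = v} =
      ⋂ k ∈ Finset.range m, {s : ℕ → ℝ | s k = v} := by
    ext s; simp
  rw [this]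
  refine Finset.measurableSet_biInter _ fun i _ => ?_
  have hm : Measurable (fun t : ℕ → ℝ => t i) := measurable_pi_apply i
  exact hm (measurableSet_singleton v)

/-- **Arbitrarily slow walks for every value of the drift.**  For every `δ ∈ [0, ∞]` and every
function `g` with `g n → ∞` there is a law of i.i.d. cookie stacks satisfying (WEL), with well
defined expected drift per site `δ`, such that the first excited random walk almost surely
satisfies `|X_n| ≤ g n` for all large `n`; in particular it has speed `0` (in every realisation of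
the walker system, and realisations exist). -/
theorem result (δ : ℝ≥0∞) (g : ℕ → ℕ) (hg : Tendsto g atTop atTop) : ∃ P : Measure (ℤ → ℕ → ℝ),
    IsCookieLaw P ∧ IsIIDStacks P ∧ IsWEL P ∧ DriftWellDefined P ∧ delta P = (δ : EReal) ∧
    (∃ (Θ : Type) (_ : MeasurableSpace Θ) (μ : Measure Θ) (W : Θ → ℤ → ℕ → ℝ)
      (X : ℕ → Θ → ℕ → ℤ) (env : ℕ → Θ → ℤ → ℕ → ℝ), IsWalkerSystem P μ W X env) ∧
    (∀ (Θ : Type) [MeasurableSpace Θ] (μ : Measure Θ) (W : Θ → ℤ → ℕ → ℝ)
      (X : ℕ → Θ → ℕ → ℤ) (env : ℕ → Θ → ℤ → ℕ → ℝ), IsWalkerSystem P μ W X env →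
        ∀ᵐ θ ∂μ, (∀ᶠ n : ℕ in atTop, |X 0 θ n| ≤ (g n : ℤ)) ∧
          Tendsto (fun n : ℕ => (X 0 θ n : ℝ) / n) atTop (𝓝 0)) := by
  obtain ⟨t, ht, hδ⟩ := exists_t δ
  obtain ⟨N, hN⟩ := exists_N
  have hg' : Tendsto (fun n => min (g n) (Nat.sqrt n)) atTop atTop := by
    rw [tendsto_atTop]
    intro b
    filter_upwards [hg.eventually_ge_atTop b, eventually_ge_atTop (b * b)] with n h1 h2
    exact le_min h1 (Nat.le_sqrt.2 h2)
  obtain ⟨F, hF, hFg⟩ := exists_F _ hg' N
  have hIID : IsIIDStacks (labelLaw (stk F t)) := ⟨labelLaw_iIndep _, labelLaw_ident _⟩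
  refine ⟨labelLaw (stk F t), ⟨inferInstance, ?_⟩, hIID, ?_, drift_wd F t ht,
    delta_eq F t ht δ hδ, ?_, ?_⟩
  · have h := labelLaw_ae_of_label (stk F t) {s | ∀ n, s n ∈ Set.Icc (0:ℝ) 1} ?_
      (fun i n => stk_mem F t i n)
    · filter_upwards [h] with ω hω
      exact hω
    · have : {s : ℕ → ℝ | ∀ n, s n ∈ Set.Icc (0:ℝ) 1} = ⋂ n, {s : ℕ → ℝ | s n ∈ Set.Icc (0:ℝ) 1} := by
        ext s; simp
      rw [this]
      refine MeasurableSet.iInter fun n => ?_
      have hm : Measurable (fun s : ℕ → ℝ => s n) := measurable_pi_apply n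
      exact hm measurableSet_Icc
  · intro x
    constructor
    · have hset : MeasurableSet {s : ℕ → ℝ | ∀ n, 0 < s n} := by
        have : {s : ℕ → ℝ | ∀ n, 0 < s n} = ⋂ n, {s : ℕ → ℝ | 0 < s n} := by ext s; simp
        rw [this]
        refine MeasurableSet.iInter fun n => ?_
        have hm : Measurable (fun s : ℕ → ℝ => s n) := measurable_pi_apply n
        exact hm measurableSet_Ioi
      refine lt_of_lt_of_le ?_ (labelLaw_site_ge (stk F t) x _ hset 0 ?_)
      · exact ENNReal.pow_pos (by simp) _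
      · intro n; simp [stk]
    · have hset : MeasurableSet {s : ℕ → ℝ | ∀ n, s n < 1} := by
        have : {s : ℕ → ℝ | ∀ n, s n < 1} = ⋂ n, {s : ℕ → ℝ | s n < 1} := by ext s; simp
        rw [this]
        refine MeasurableSet.iInter fun n => ?_
        have hm : Measurable (fun s : ℕ → ℝ => s n) := measurable_pi_apply n
        exact hm measurableSet_Iio
      refine lt_of_lt_of_le ?_ (labelLaw_site_ge (stk F t) x _ hset 0 ?_)
      · exact ENNReal.pow_pos (by simp) _
      · intro n; simp only [stk, if_true]; norm_num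
  · -- existence of the walker system
    let W₀ : (ℤ → ℕ) → ℤ → ℕ → ℝ := fun l x => stk F t (l x)
    have hW : Measurable W₀ := measurable_pi_lambda _ fun x =>
      (measurable_of_countable (stk F t)).comp (measurable_pi_apply x)
    have hval : ∀ ω x k, W₀ ω x k = 0 ∨ W₀ ω x k = 1/2 ∨ W₀ ω x k = 1 :=
      fun ω x k => stk_values F t _ _
    refine ⟨(ℤ → ℕ) × ((ℕ × ℤ × ℕ) → Bool), inferInstance,
      (Measure.infinitePi (fun _ : ℤ => geo)).prod coins, sW W₀, sX W₀, sE W₀, ?_⟩
    refine ⟨inferInstance, measurable_sW hW, ?_, measurable_sX hW, rfl, ?_, ?_, fun _ _ => rfl,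
      ?_, ?_⟩
    · have : sW W₀ = W₀ ∘ (Prod.fst : (ℤ → ℕ) × ((ℕ × ℤ × ℕ) → Bool) → (ℤ → ℕ)) := rfl
      rw [this, ← Measure.map_map hW measurable_fst, Measure.map_fst_prod]
      simp [labelLaw, W₀]
    · intro j θ x n h
      have e : sE W₀ (j+1) θ = leftover (sE W₀ j θ) (sX W₀ j θ) := rfl
      rw [e, leftover, if_pos h]
    · intro j θ x n h
      have e : sE W₀ (j+1) θ = leftover (sE W₀ j θ) (sX W₀ j θ) := rfl
      rw [e, leftover, if_neg h]
    · intro j θ n
      have h := pos_succ (arrows (sE W₀ j θ) (sc θ j)) n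
      have h' : sX W₀ j θ (n+1) = if arrows (sE W₀ j θ) (sc θ j) (sk W₀ j n θ).1
          (sk W₀ j n θ).2 then sX W₀ j θ n + 1 else sX W₀ j θ n - 1 := h
      rw [h']
      split_ifs
      · left; rfl
      · right; rfl
    · intro j n
      have h := condExp_step (Measure.infinitePi (fun _ : ℤ => geo)) hW hval j n
      refine h.trans ?_
      filter_upwards with θ
      have : sg W₀ j n θ = sE W₀ j θ (sk W₀ j n θ).1 (sk W₀ j n θ).2 := rfl
      rw [this, sk_snd]
      rfl
  · -- every walker system is slow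
    intro Θ _ μ W X env hsys
    have hprob := hsys.prob
    have hA := bc (stk F t) (fun j => {s | ∀ k, k < F j → s k = 0}) (fun j => 2 * j + 2)
      (fun j => meas_pile 0 (F j)) (fun j k hk => by
        unfold stk
        rw [if_neg (by omega), if_pos (by omega), if_pos]
        rwa [show (2 * j + 2) / 2 - 1 = j by omega]) N (fun j => (hN j).1)
      (fun i => (i:ℤ) + 1) (fun i j h => by simpa using h)
    have hB := bc (stk F t) (fun j => {s | ∀ k, k < F j → s k = 1}) (fun j => 2 * j + 3)
      (fun j => meas_pile 1 (F j)) (fun j k hk => by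
        unfold stk
        rw [if_neg (by omega), if_neg (by omega), if_pos]
        rw [show (2 * j + 3) / 2 - 1 = j by omega]
        omega) N (fun j => (hN j).2)
      (fun i => -((i:ℤ) + 1)) (fun i j h => by simpa using h)
    rw [← hsys.law_env] at hA hB
    have hA' := ae_of_ae_map hsys.meas_env.aemeasurable hA
    have hB' := ae_of_ae_map hsys.meas_env.aemeasurable hB
    have hforced : ∀ᵐ θ ∂μ, ∀ n : ℕ,
        (env 0 θ (X 0 θ n) ((Finset.range n).filter (fun m => X 0 θ m = X 0 θ n)).card = 0 →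
          ¬ (X 0 θ (n+1) = X 0 θ n + 1)) ∧
        (env 0 θ (X 0 θ n) ((Finset.range n).filter (fun m => X 0 θ m = X 0 θ n)).card = 1 →
          X 0 θ (n+1) = X 0 θ n + 1) := by
      rw [ae_all_iff]
      intro n
      have hR : MeasurableSet {θ | X 0 θ (n+1) = X 0 θ n + 1} := by
        have h1 : Measurable (fun θ => X 0 θ (n+1)) :=
          (measurable_pi_apply (n+1)).comp (hsys.meas_walk 0)
        have h2 : Measurable (fun θ => X 0 θ n) :=
          (measurable_pi_apply n).comp (hsys.meas_walk 0)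
        exact measurableSet_eq_fun h1 (h2.add_const 1)
      have hle : MeasurableSpace.comap
          (fun θ => (W θ, (fun i : Fin 0 => X (i : ℕ) θ), (fun m : Fin (n+1) => X 0 θ (m : ℕ))))
          inferInstance ≤ (inferInstance : MeasurableSpace Θ) := by
        apply Measurable.comap_le
        refine hsys.meas_env.prodMk (Measurable.prodMk ?_ ?_)
        · exact measurable_pi_lambda _ fun i => hsys.meas_walk i
        · exact measurable_pi_lambda _ fun m =>
            (measurable_pi_apply (m : ℕ)).comp (hsys.meas_walk 0)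
      exact condExp_forced hR hle (hsys.transition 0 n)
    filter_upwards [hA', hB', hforced] with θ h1 h2 h3
    have h0 := two_side (X 0 θ) (hsys.start 0 θ) (hsys.nearest 0 θ) (W θ) (by
        intro n hn
        have h4 := (h3 n).1 (by rw [hsys.env_zero]; exact hn)
        rcases hsys.nearest 0 θ n with h | h
        · exact absurd h h4
        · exact h) (by
        intro n hn
        exact (h3 n).2 (by rw [hsys.env_zero]; exact hn)) F N _ hF hFg h1 h2
    refine ⟨?_, speed_of_sqrt _ ?_⟩
    · filter_upwards [h0] with n hn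
      refine hn.trans ?_
      exact_mod_cast min_le_left _ _
    · filter_upwards [h0] with n hn
      refine hn.trans ?_
      exact_mod_cast min_le_right _ _

end Pool.Agent.Results.MP_204ba2_pr.ArbitrarilySlow
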